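import Pool.Agent.MP_abb977_al.H94.Fin
import Pool.Agent.MP_abb977_al.H94.Mix

/-! Question 1 when a Sylow subgroup of one group has cyclic centre of index `p ^ 2`. -/

namespace Pool.Agent.Results.MP_abb977_al.CyclicCentre

open Pool.Agent.MP_abb977_al.H94

theorem result (p : ℕ) (hp : p.Prime) (G H : Type) [Group G] [Group H] [Finite G] [Finite H]
    (table : ∃ (e : ConjClasses G ≃ ConjClasses H)
      (f : {χ : G → ℂ | ∃ V : FDRep ℂ G, CategoryTheory.Simple V ∧ V.character = χ} ≃
        {ψ : H → ℂ | ∃ W : FDRep ℂ H, CategoryTheory.Simple W ∧ W.character = ψ}),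
      ∀ χ (g : G) (h : H), e (ConjClasses.mk g) = ConjClasses.mk h → (f χ).1 h = χ.1 g)
    (P : Sylow p G) (Q : Sylow p H) (cyc : IsCyclic (Subgroup.center P))
    (ind : (Subgroup.center P).index = p ^ 2) :
    (Nat.card (Subgroup.normalizer (P : Set G) ⧸
        (P : Subgroup G).subgroupOf (Subgroup.normalizer (P : Set G)))).primeFactors =
      (Nat.card (Subgroup.normalizer (Q : Set H) ⧸
        (Q : Subgroup H).subgroupOf (Subgroup.normalizer (Q : Set H)))).primeFactors := by
  have := Fact.mk hp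
  have := Fintype.ofFinite G
  have := Fintype.ofFinite H
  obtain ⟨e, f, h⟩ := table
  obtain ⟨F, hF⟩ := exists_mt e f h
  obtain ⟨u, hu⟩ := (Subgroup.isCyclic_iff_exists_zpowers_eq_top _).1 cyc
  obtain ⟨a, b, nab⟩ : ∃ a b : (P : Subgroup G), ¬Commute a b := by
    by_contra! k
    rw [(Subgroup.eq_top_iff' _).2 fun x => Subgroup.mem_center_iff.2 fun g => k g x,
      Subgroup.index_top] at ind
    exact (Nat.one_lt_pow two_ne_zero hp.one_lt).ne ind
  obtain ⟨z, d⟩ := DD.of (u := u) P.isPGroup' (fun x =>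
    (Subgroup.mem_center_iff.1 (hu ▸ Subgroup.mem_zpowers u) x).symm) (hu ▸ ind.le) nab
  exact pf_eq fun q hq => hF.cyc (sy_of P) (sy_of Q) hq d

end Pool.Agent.Results.MP_abb977_al.CyclicCentre
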