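import Pool.Agent.MP_abb977_al.CQ.Reg

/-! Question 2 in one direction, under hypotheses on the Sylow normaliser of the second group only. -/

namespace Pool.Agent.Results.MP_abb977_al.CyclicQuotient

open Pool.Agent.MP_abb977_al Subgroup

theorem result (p : ℕ) (hp : p.Prime) (G H : Type) [Group G] [Group H] [Finite G] [Finite H]
    (table : ∃ (e : ConjClasses G ≃ ConjClasses H)
      (f : {χ : G → ℂ | ∃ V : FDRep ℂ G, CategoryTheory.Simple V ∧ V.character = χ} ≃
        {ψ : H → ℂ | ∃ W : FDRep ℂ H, CategoryTheory.Simple W ∧ W.character = ψ}),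
      ∀ χ (g : G) (h : H), e (ConjClasses.mk g) = ConjClasses.mk h → (f χ).1 h = χ.1 g)
    (P : Sylow p G) (Q : Sylow p H) (N C : Subgroup H)
    (hN : N = normalizer ((Q : Subgroup H) : Set H))
    (hC : C = (Q : Subgroup H) ⊔ centralizer ((Q : Subgroup H) : Set H))
    (cyclic : ∃ t ∈ N, N = zpowers t ⊔ C)
    (faithful : ∀ n ∈ N, (∀ z ∈ (Q : Subgroup H), (∀ x ∈ (Q : Subgroup H), x * z = z * x) →
      n * z = z * n) → n ∈ C)
    (coprime : (C.relIndex N).Coprime ((Q : Subgroup H).relIndex C))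
    (hG : IsCyclic (normalizer ((P : Subgroup G) : Set G) ⧸
      (P : Subgroup G).subgroupOf (normalizer ((P : Subgroup G) : Set G)))) :
    IsCyclic (normalizer ((Q : Subgroup H) : Set H) ⧸
      (Q : Subgroup H).subgroupOf (normalizer ((Q : Subgroup H) : Set H))) := by
  have := Fact.mk hp
  have := Fintype.ofFinite G
  have := Fintype.ofFinite H
  subst hN hC
  obtain ⟨e, f, h⟩ := table
  obtain ⟨F, hF⟩ := H94.exists_mt e f h
  have hP : H94.Sy p (P : Subgroup G) := ⟨P.isPGroup', P.not_dvd_index⟩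
  have hQ : H94.Sy p (Q : Subgroup H) := ⟨Q.isPGroup', Q.not_dvd_index⟩
  obtain ⟨t, ht, top⟩ := cyclic
  obtain ⟨z, hz, zc, hs⟩ := CQ.regular hQ ht top.le fun n hn k => faithful n hn fun z hz c =>
    k z hz fun x hx => mem_centralizer_singleton_iff.2 (c x hx)
  obtain ⟨g, h1, h2, h3, h4⟩ := CQ.gen_of hP hG
  obtain ⟨y, k1, -, k3, k4⟩ := CQ.core hF hP hQ h1 h2 h3 h4 hz zc hs
  exact CQ.cyc_of hQ k1 k3 k4 ht top.le coprime

end Pool.Agent.Results.MP_abb977_al.CyclicQuotient
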