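import Pool.Agent.MP_abb977_al.H94.Fin

/-! Question 1 for groups with metacyclic Sylow subgroups. -/

namespace Pool.Agent.Results.MP_abb977_al.Metacyclic

open Pool.Agent.MP_abb977_al.H94

theorem result (p : ℕ) (hp : p.Prime) (G H : Type) [Group G] [Group H] [Finite G] [Finite H]
    (table : ∃ (e : ConjClasses G ≃ ConjClasses H)
      (f : {χ : G → ℂ | ∃ V : FDRep ℂ G, CategoryTheory.Simple V ∧ V.character = χ} ≃
        {ψ : H → ℂ | ∃ W : FDRep ℂ H, CategoryTheory.Simple W ∧ W.character = ψ}),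
      ∀ χ (g : G) (h : H), e (ConjClasses.mk g) = ConjClasses.mk h → (f χ).1 h = χ.1 g)
    (P : Sylow p G) (Q : Sylow p H)
    (hP : ∃ (A : Subgroup P) (_ : A.Normal), IsCyclic A ∧ IsCyclic (P ⧸ A))
    (hQ : ∃ (B : Subgroup Q) (_ : B.Normal), IsCyclic B ∧ IsCyclic (Q ⧸ B)) :
    (Nat.card (Subgroup.normalizer (P : Set G) ⧸
        (P : Subgroup G).subgroupOf (Subgroup.normalizer (P : Set G)))).primeFactors =
      (Nat.card (Subgroup.normalizer (Q : Set H) ⧸
        (Q : Subgroup H).subgroupOf (Subgroup.normalizer (Q : Set H)))).primeFactors := by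
  have := Fact.mk hp
  have := Fintype.ofFinite G
  have := Fintype.ofFinite H
  obtain ⟨e, f, h⟩ := table
  obtain ⟨F, hF⟩ := exists_mt e f h
  obtain ⟨A, _, _, _⟩ := hP
  obtain ⟨B, _, _, _⟩ := hQ
  obtain ⟨a, b, n, g⟩ := G2.of A
  obtain ⟨a', b', n', g'⟩ := G2.of B
  exact pf_eq fun q hq => ⟨hF.mc (sy_of P) (sy_of Q) hq n g g',
    hF.symm.mc (sy_of Q) (sy_of P) hq n' g' g⟩

end Pool.Agent.Results.MP_abb977_al.Metacyclic
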